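import Pool.Agent.TH93.CE.Easy
import Pool.Agent.H620R2.Gauge.Y
import Pool.Agent.TH683.AT.Low
import Pool.Agent.TH93.GL.Up

/-!
# The padded problem is hard relative to a random oracle
-/

set_option autoImplicit false

namespace Pool.Agent.TH93.CE

open Finset Filter MeasureTheory
open H568R2 Pool.Agent.H676 Pool.Agent.H620R2.Gauge Pool.Agent.NPC Pool.Agent.H591R3.PHG
open Pool.Agent.H591R3.CEX Pool.Agent.TH93.GL
open Pool.Agent.H628R3.RO (randomOracle)
open Pool.Agent.TH683.AT (poly_small)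

theorem asymP (i : ℕ) (P : Polynomial ℕ) (g : ℕ → ℕ)
    (hg : ∀ c : ℕ, ∃ᶠ m : ℕ in atTop, c * (Nat.log 2 m + 1) ≤ g m) (δ : ℝ) (hδ : 0 < δ) :
    ∃ m n u : ℕ, 40 ≤ n ∧ P.eval m ≤ 2 ^ (2 * u) ∧ 8 * u ≤ n ∧
      (Lx i).eval n + 3 ≤ m ∧ (Lx i).eval n ≤ g m ∧
      bnd i (Polynomial.C (P.eval m)) n u ≤ δ := by
  set e : ℕ := P.natDegree + 1 with he
  set D : ℕ := 128 * (i + 1) + 17 with hD
  set c : ℕ := D * (8 * (i + 1) * e + 40) + (i + 13) with hc
  obtain ⟨n₀, hn₀⟩ := poly_small (Polynomial.C c * (Polynomial.X + 1) + 3)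
  obtain ⟨x₀, hx₀⟩ := eventually_atTop.1 (Y_real i δ)
  obtain ⟨m, hgm, hm⟩ := ((hg c).and_eventually
    (eventually_ge_atTop (2 ^ n₀ + ⌈x₀⌉₊ + 8 * P.eval 1 + 2))).exists
  have h2n : 0 < 2 ^ n₀ := Nat.two_pow_pos _
  have hm0 : m ≠ 0 := by omega
  have h8P : 8 * P.eval 1 ≤ m := by omega
  have hceil : ⌈x₀⌉₊ ≤ m := by omega
  set L : ℕ := Nat.log 2 m with hL
  have hLn : n₀ ≤ L := (Nat.le_log_iff_pow_le (by norm_num) hm0).2 (by omega)
  have h2L : 2 ^ L ≤ m := Nat.pow_log_le_self 2 hm0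
  have hmL : m < 2 ^ (L + 1) := Nat.lt_pow_succ_log_self (by norm_num) m
  have h4 := hn₀ L hLn
  simp only [Polynomial.eval_mul, Polynomial.eval_add, Polynomial.eval_X, Polynomial.eval_one,
    Polynomial.eval_ofNat, Polynomial.eval_C] at h4
  set u : ℕ := e * (L + 1) with hu
  set n : ℕ := 8 * (i + 1) * u + 40 with hn
  have hu1 : L + 1 ≤ u := Nat.le_mul_of_pos_left _ (by omega)
  have hLx : (Lx i).eval n ≤ c * (L + 1) := by
    rw [eval_Lx, hc, hn, hu, ← hD]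
    have h1 : (D * (8 * (i + 1) * e + 40) + (i + 13)) * (L + 1) =
        D * (8 * (i + 1) * (e * (L + 1)) + 40 * (L + 1)) + (i + 13) * (L + 1) := by ring
    rw [h1]
    apply Nat.add_le_add
    · apply Nat.mul_le_mul_left
      omega
    · exact Nat.le_mul_of_pos_right _ (by omega)
  have hP8 : 8 * P.eval m ≤ 2 ^ u := by
    have h1 := Y_poly_le P m (by omega)
    calc 8 * P.eval m ≤ 8 * (P.eval 1 * m ^ P.natDegree) := Nat.mul_le_mul_left _ h1
      _ = (8 * P.eval 1) * m ^ P.natDegree := by ring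
      _ ≤ m * m ^ P.natDegree := Nat.mul_le_mul_right _ h8P
      _ = m ^ e := by rw [he, pow_succ]; ring
      _ ≤ (2 ^ (L + 1)) ^ e := Nat.pow_le_pow_left hmL.le _
      _ = 2 ^ u := by rw [← pow_mul, hu]; congr 1; ring
  have hcu : 8 * (i + 1) * u ≤ n := Nat.le_add_right _ _
  have h40 : 40 ≤ n := Nat.le_add_left _ _
  refine ⟨m, n, u, h40, ?_, ?_, ?_, hLx.trans hgm, ?_⟩
  · have h5 : 2 ^ u ≤ 2 ^ (2 * u) := Nat.pow_le_pow_right (by norm_num) (by omega)
    omega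
  · have h5 : 8 * u ≤ 8 * (i + 1) * u := Nat.mul_le_mul_right _ (by omega)
    exact h5.trans hcu
  · exact (Nat.add_le_add_right hLx 3).trans (h4.trans h2L)
  · have hb := Y_bnd i (Polynomial.C (P.eval m)) n u (by omega) hcu
    have hPe : (Polynomial.C (P.eval m)).eval n = P.eval m := Polynomial.eval_C
    rw [hPe] at hb
    set T : ℝ := (2 : ℝ) ^ u with hT
    have hT0 : 0 < T := by positivity
    have hmT : (m : ℝ) ≤ T := by
      have h1 : m ≤ 2 ^ u := hmL.le.trans (Nat.pow_le_pow_right (by norm_num) hu1)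
      rw [hT]
      exact_mod_cast h1
    have hxT : x₀ ≤ T := by
      have h1 : x₀ ≤ (m : ℝ) := (Nat.le_ceil x₀).trans (by
        exact_mod_cast hceil)
      linarith
    obtain ⟨c2, c3⟩ := hx₀ T hxT
    have h2 : (0 : ℝ) < 2 := by norm_num
    have e1 : (2 : ℝ) ^ P.eval m ≤ 2 ^ (T / 8) := by
      rw [← Real.rpow_natCast]
      apply Real.rpow_le_rpow_of_exponent_le (by norm_num)
      have : (8 : ℝ) * P.eval m ≤ T := by rw [hT]; exact_mod_cast hP8
      linarith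
    have e2 : ((1 : ℝ) / 2) ^ 2 ^ u = 2 ^ (-T) := by
      rw [Real.rpow_neg h2.le, one_div, inv_pow, hT, ← Real.rpow_natCast]
      push_cast; rfl
    have hA : (0 : ℝ) < 2 ^ (T / 8) := by positivity
    calc bnd i (Polynomial.C (P.eval m)) n u
        ≤ 2 ^ P.eval m * ((1 / 2) ^ 2 ^ u * ((i : ℝ) + 1 + T * (T ^ 3 + 1))) := hb
      _ ≤ 2 ^ (T / 8) * (2 ^ (-T) * 2 ^ (T / 8)) := by
          rw [e2]
          gcongr
      _ = 2 ^ (T / 8 + (-T + T / 8)) := by
          rw [Real.rpow_add h2, Real.rpow_add h2]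
      _ ≤ 2 ^ (-(T / 8)) := by
          apply Real.rpow_le_rpow_of_exponent_le (by norm_num)
          linarith
      _ ≤ δ := by
          rw [Real.rpow_neg h2.le]
          rw [inv_le_comm₀ hA hδ]
          rw [← one_div]
          exact c3

/-- the bound for the questions of the verifier -/
noncomputable def LqP (θ : Par2) (qb : Polynomial ℕ) : Polynomial ℕ :=
  qb + Polynomial.C θ.i * (2 * θ.p.comp qb + 1)

theorem eval_LqP (θ : Par2) (qb : Polynomial ℕ) (m : ℕ) :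
    (LqP θ qb).eval m = Lq θ (qb.eval m) := by
  simp [LqP, Lq, Polynomial.eval_comp]

theorem null_easyP (g : ℕ → ℕ) (hg : ∀ c : ℕ, ∃ᶠ m : ℕ in atTop, c * (Nat.log 2 m + 1) ≤ g m)
    (θ : Par2) : Null (fun _ => 0) (EasyP g θ) := by
  classical
  intro δ hδ
  obtain ⟨qb, qn, hQ⟩ := evP_of_easy θ
  obtain ⟨P, hPdef⟩ : ∃ P : Polynomial ℕ, P = θ.M.p + θ.N.p.comp (LqP θ qb) + LqP θ qb +
    θ.p.comp qb + 4 := ⟨_, rfl⟩
  have hPe : ∀ m, P.eval m = θ.M.p.eval m + θ.N.p.eval (Lq θ (qb.eval m)) + Lq θ (qb.eval m) +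
      θ.p.eval (qb.eval m) + 4 := by
    intro m
    rw [hPdef]
    simp only [Polynomial.eval_add, Polynomial.eval_comp, eval_LqP, Polynomial.eval_ofNat]
  obtain ⟨m, n, u, hn40, hP, hu8, hm3, hgm, hb⟩ := asymP θ.i P g hg δ hδ
  have hPm := hPe m
  obtain ⟨as, hk, has, a, ha, ha1, hX⟩ := exists_sizes2 hn40 θ.i _ (inv_start (by omega))
  have hlaw := hX (2 ^ (u + 11)) (2 ^ (u + 9)) (by
      have : 2 ^ (u + 11) = 4 * 2 ^ (u + 9) := by
        rw [show u + 11 = u + 9 + 2 from rfl, pow_add _ (u + 9) 2]; ring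
      omega)
  obtain ⟨N, hNdef⟩ : ∃ N : ℕ, N = 2 ^ (qn.eval (Lq θ (qb.eval m)) + 1) +
    2 ^ ((Lx θ.i).eval n + 64 * (θ.i + 1) * n + 8 * n + 1) := ⟨_, rfl⟩
  have hN1 : 2 ^ (qn.eval (Lq θ (qb.eval m)) + 1) ≤ N := hNdef ▸ Nat.le_add_right _ _
  have hN2 : 2 ^ ((Lx θ.i).eval n + 64 * (θ.i + 1) * n + 8 * n + 1) ≤ N :=
    hNdef ▸ Nat.le_add_left _ _
  have hpos : ∀ g : Idx (Fin (2 ^ (u + 11)) × Fin (2 ^ a)) (8 * n :: pw as),
      idx (addr (xs2 as a n (2 ^ (u + 11))) as g.1 ++ List.replicate g.2.val true) < N :=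
    fun g => pos2_lt hk has ha hN2 g
  have hlen : ∀ j : Fin (2 ^ (u + 11)), (inp (as ++ [a]) n (2 ^ (u + 11)) j).length + 3 ≤ m ∧
      (inp (as ++ [a]) n (2 ^ (u + 11)) j).length ≤ g m := by
    intro j
    have h1 := inp_len (as ++ [a]) n (2 ^ (u + 11)) j
    have h2 : 2 * (as ++ [a]).sum + (as ++ [a]).length + 2 * (8 * n) + 1 + (n + 11) ≤
        (Lx θ.i).eval n := inp_len_le (k := θ.i) (by simp [hk]) (by
          intro a' ha'
          rcases List.mem_append.1 ha' with h | h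
          · exact has a' h
          · rw [List.mem_singleton.1 h]; exact ha)
    omega
  have hev := evP_bound θ (P := P.eval m) (K := 2 ^ (u + 11)) rfl
    (fun j => pad m (inp (as ++ [a]) n (2 ^ (u + 11)) j)) (Rn := θ.M.p.eval m)
    (ℓ := qb.eval m) hn40 hu8 hk ha1 hlaw (by omega) hP
    (by
      have : Lq θ (qb.eval m) = qb.eval m + θ.i * (2 * θ.p.eval (qb.eval m) + 1) := rfl
      rw [← this]
      omega)
    (by
      have : Lq θ (qb.eval m) = qb.eval m + θ.i * (2 * θ.p.eval (qb.eval m) + 1) := rfl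
      rw [← this]
      omega) hpos
  set E : Set (Fin N → Bool) := {α | EvP θ as a n N
    (fun j => pad m (inp (as ++ [a]) n (2 ^ (u + 11)) j)) (θ.M.p.eval m) (qb.eval m) hpos α}
    with hE
  refine ⟨(fun α : Fin N → Bool => List.ofFn α) '' E, ?_, ?_⟩
  · intro A hA
    refine ⟨List.ofFn (pre N A), ⟨pre N A,
      hQ g A hA as a n N (2 ^ (u + 11)) m hk hlen hpos hN1, rfl⟩, ?_⟩
    intro i hi
    rw [List.getElem_ofFn]
    rfl
  · have hinj : Set.InjOn (fun α : Fin N → Bool => List.ofFn α) E :=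
      fun a _ b _ h => List.ofFn_injective h
    rw [tsum_image (fun σ : List Bool => ENNReal.ofReal (2 ^ ((0 : ℝ) - σ.length))) hinj]
    simp only [List.length_ofFn]
    rw [tsum_fintype, Finset.sum_const, nsmul_eq_mul, Finset.card_univ]
    rw [← ENNReal.ofReal_natCast, ← ENNReal.ofReal_mul (by positivity)]
    apply ENNReal.ofReal_le_ofReal
    have h1 : Fintype.card E =
        (univ.filter (fun α : Fin N → Bool => EvP θ as a n N
          (fun j => pad m (inp (as ++ [a]) n (2 ^ (u + 11)) j)) (θ.M.p.eval m) (qb.eval m)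
          hpos α)).card := by
      rw [← Fintype.card_subtype]
      rfl
    have h2 := card_of_Ex (fun α : Fin N → Bool => EvP θ as a n N
          (fun j => pad m (inp (as ++ [a]) n (2 ^ (u + 11)) j)) (θ.M.p.eval m) (qb.eval m)
          hpos α)
    have h3 : (2 : ℝ) ^ ((0 : ℝ) - N) = 2 ^ (-(N : ℝ)) := by rw [zero_sub]
    rw [h1, h3, h2]
    exact hev.trans hb

theorem measure_easyP (g : ℕ → ℕ)
    (hg : ∀ c : ℕ, ∃ᶠ m : ℕ in atTop, c * (Nat.log 2 m + 1) ≤ g m) (θ : Par2) :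
    randomOracle (EasyP g θ) = 0 := by
  refine Pool.Agent.W900.CH.measure_far (null_easyP g hg θ) (EasyP g θ) (fun _ => {∅})
    (fun N => by simp) fun O hO => ⟨O, hO, fun N => ?_⟩
  rw [Finset.mem_singleton]
  unfold Pool.Agent.W900.CH.diffN
  simp

theorem frequently_of {g : ℕ → ℕ} (hg : ¬ ∃ c : ℕ, ∀ n, g n ≤ c * (Nat.log 2 n + 1)) (c : ℕ) :
    ∃ᶠ m : ℕ in atTop, c * (Nat.log 2 m + 1) ≤ g m := by
  by_contra hcon
  rw [not_frequently, eventually_atTop] at hcon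
  obtain ⟨m₀, hm₀⟩ := hcon
  apply hg
  refine ⟨c + (Finset.range m₀).sup g, fun n => ?_⟩
  by_cases hn : n < m₀
  · have h1 : g n ≤ (Finset.range m₀).sup g := Finset.le_sup (f := g) (Finset.mem_range.2 hn)
    refine h1.trans ?_
    refine le_trans ?_ (Nat.mul_le_mul_left _ (by omega : 1 ≤ Nat.log 2 n + 1))
    omega
  · have h1 := hm₀ n (by omega)
    refine le_trans (by omega : g n ≤ c * (Nat.log 2 n + 1)) (Nat.mul_le_mul_right _ (by omega))

/-- relative to almost every oracle, the padded problem is hard -/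
theorem ae_hard : ∀ᵐ A ∂randomOracle, ∀ g : ℕ → ℕ, NiceT (fun n => n) g →
    (¬ ∃ c : ℕ, ∀ n, g n ≤ c * (Nat.log 2 n + 1)) → ∀ i (M : CAlg) (B : Oracle),
      IsSigma A i {q | B q = true} → ¬ Computes M B (CP g A i) id := by
  have h1 : ∀ᵐ A ∂randomOracle, ∀ g ∈ {g : ℕ → ℕ | NiceT (fun n => n) g}, ∀ θ : Par2,
      (¬ ∃ c : ℕ, ∀ n, g n ≤ c * (Nat.log 2 n + 1)) → A ∉ EasyP g θ := by
    refine (ae_ball_iff (countable_niceT (fun n => n))).2 fun g _ => ae_all_iff.2 fun θ => ?_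
    by_cases hg : ∃ c : ℕ, ∀ n, g n ≤ c * (Nat.log 2 n + 1)
    · exact Eventually.of_forall fun A h => absurd hg h
    · have h2 := measure_easyP g (fun c => frequently_of hg c) θ
      rw [ae_iff]
      simpa [hg] using h2
  filter_upwards [h1] with A hA g hg hs i M B hB hM
  obtain ⟨θ, hθ⟩ := mem_easyP hB hM
  exact hA g hg θ hs hθ

end Pool.Agent.TH93.CE
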