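import Pool.Agent.H591R3.CEX.Defs

/-!
# One optimization problem

(Continues `Pool.Agent.H591R3.CEX.Defs`.)
-/

set_option autoImplicit false

namespace Pool.Agent.TH93.CE

open Pool.Agent.H620R2.Gauge Pool.Agent.H591R3.CEX

/-- The optimization problem `(C, ρ)` is computed by a counterexample computation of type 1 with an
oracle in `Σ_i` relative to `A`. -/
def Comp1 (A : Oracle) (i : ℕ) (C : ℕ → ℕ → Prop) (ρ : ℕ → ℕ) : Prop :=
  ∃ (M : CAlg) (B : Oracle), IsSigma A i {q | B q = true} ∧ Computes M B C ρ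

end Pool.Agent.TH93.CE
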