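import Pool.Agent.H591R3.CEX.Cover2
import Pool.Agent.H490R3.LH.EQA1
import Pool.Agent.TH93.GL.Defs

/-!
# The padded optimization problem
-/

set_option autoImplicit false

namespace Pool.Agent.TH93.CE

open Finset Pool.Agent.H620R2.Gauge Pool.Agent.NPC Pool.Agent.H591R3.PHG
open Pool.Agent.H591R3.CEX Pool.Agent.TH93.GL
open Pool.Agent.H622R2 (poly_pairBits poly_of_polyTime)

/-- remove the padding -/
def core (u : List Bool) : List Bool :=
  if (unpair u).2.head?.getD false = true then (unpair u).2.tail.tail else (unpair u).2.tail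

/-- the string `w`, padded to length `m` -/
def pad (m : ℕ) (w : List Bool) : List Bool :=
  if (m - w.length) % 2 = 0 then
    pairBits (List.replicate ((m - w.length - 2) / 2) true) (false :: w)
  else pairBits (List.replicate ((m - w.length - 3) / 2) true) (true :: true :: w)

theorem core_pad (m : ℕ) (w : List Bool) : core (pad m w) = w := by
  unfold core pad
  split_ifs with h1 h2 h2 <;> simp_all [unpair_pairBits]

theorem pad_len {m : ℕ} {w : List Bool} (h : w.length + 3 ≤ m) : (pad m w).length = m := by
  unfold pad
  split_ifs with h1 <;> rw [length_pairBits] <;>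
    simp only [List.length_replicate, List.length_cons] <;> omega

theorem core_len (u : List Bool) : (core u).length ≤ u.length - 1 := by
  have h1 : 2 * (unpair u).1.length ≤ u.length := PiCA.length_unpair2 u
  have h2 := LangSig.length_unpair u
  unfold core
  split_ifs <;> simp only [List.length_tail] <;> omega

/-- The padded problem: the solutions of the problem `CA` for the input without the padding, if this
input has length at most `g (|x|)`. -/
def CP (g : ℕ → ℕ) (A : Oracle) (i : ℕ) (x y : ℕ) : Prop :=
  y = 0 ∨ ((core (str x)).length ≤ g (str x).length ∧ CA A i (num (core (str x))) y)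

theorem cp_short {g : ℕ → ℕ} {A : Oracle} {i x y : ℕ} (h : CP g A i x y) :
    (str y).length ≤ g (str x).length := by
  rcases h with h | ⟨h1, h2⟩
  · rw [h, PiCA.str_zero]
    exact Nat.zero_le _
  · have h3 := Upper.length_le (PiCA.le _ _ h2)
    rw [Upper.str_num] at h3
    exact h3.trans h1

theorem num_le {u v : List Bool} (h : u.length ≤ v.length - 1) : num u ≤ num v := by
  rcases Nat.eq_zero_or_pos v.length with h0 | h0
  · have hu : u = [] := List.length_eq_zero_iff.1 (by omega)
    rw [hu]
    have : num [] = 0 := rfl
    omega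
  · have h1 := idx_lt u
    have h2 := le_idx v
    have h3 : 2 ^ (u.length + 1) ≤ 2 ^ v.length := Nat.pow_le_pow_right (by norm_num) (by omega)
    show idx u ≤ idx v
    omega

theorem cp_le {g : ℕ → ℕ} {A : Oracle} {i : ℕ} (x y : ℕ) (h : CP g A i x y) : y ≤ x := by
  rcases h with h | ⟨-, h2⟩
  · omega
  · have h3 := PiCA.le _ _ h2
    have h4 := num_le (core_len (str x))
    rw [Upper.num_str] at h4
    exact h3.trans h4

/-- the pairs that are not in `C` -/
def NotIn (C : ℕ → ℕ → Prop) : Set (List Bool) :=
  {z | ∃ x y, z = pairBits (str x) (str y) ∧ ¬ C x y}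

theorem mem_pair (C : ℕ → ℕ → Prop) (u v : List Bool) :
    pairBits u v ∈ NotIn C ↔ ¬ C (num u) (num v) := by
  constructor
  · rintro ⟨x, y, h, hc⟩
    have h1 : (u, v) = (str x, str y) := by rw [← unpair_pairBits u v, h, unpair_pairBits]
    rw [Prod.mk.injEq] at h1
    rw [h1.1, h1.2, Upper.num_str, Upper.num_str]
    exact hc
  · intro h
    exact ⟨num u, num v, by rw [Upper.str_num, Upper.str_num], h⟩

theorem nil_notIn (C : ℕ → ℕ → Prop) : ([] : List Bool) ∉ NotIn C := by
  rintro ⟨x, y, h, -⟩
  have := congrArg List.length h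
  rw [length_pairBits, List.length_nil] at this
  omega

open Classical in
/-- the reduction of the padded problem -/
noncomputable def red (G : List Bool → ℕ) (z : List Bool) : List Bool :=
  if pairBits (unpair z).1 (unpair z).2 = z then
    (if (unpair z).2 = [] then [] else
      (if (core (unpair z).1).length ≤ G (unpair z).1 then
        pairBits (core (unpair z).1) (unpair z).2 else pairBits [] [true]))
  else []

theorem poly_core : Poly core :=
  Poly.ite (p := fun u => (unpair u).2.head?.getD false = true)
    (Poly.decide_eq (Poly.head?_getD (Poly.snd poly_unpair) false) (NPC.Poly.const true))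
    (Poly.tail (Poly.tail (Poly.snd poly_unpair))) (Poly.tail (Poly.snd poly_unpair))

theorem poly_red {G : List Bool → ℕ} (hG : Poly G) : Poly (red G) := by
  have h1 : Poly (fun z : List Bool => (unpair z).1) := Poly.fst poly_unpair
  have h2 : Poly (fun z : List Bool => (unpair z).2) := Poly.snd poly_unpair
  refine (Poly.ite (p := fun z => pairBits (unpair z).1 (unpair z).2 = z)
    (Poly.decide_eq (poly_pairBits h1 h2) Poly.id)
    (Poly.ite (p := fun z => (unpair z).2 = []) (Poly.decide_eq h2 (NPC.Poly.const []))
      (NPC.Poly.const [])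
      (Poly.ite (p := fun z => (core (unpair z).1).length ≤ G (unpair z).1)
        (Poly.decide_le (Poly.length (poly_core.comp h1)) (hG.comp h1))
        (poly_pairBits (poly_core.comp h1) h2) (NPC.Poly.const (pairBits [] [true]))))
    (NPC.Poly.const [])).congr fun z => ?_
  unfold red
  split_ifs <;> rfl

theorem red_iff (g : ℕ → ℕ) (A : Oracle) (i : ℕ) (z : List Bool) :
    z ∈ NotIn (CP g A i) ↔ red (fun u => g u.length) z ∈ NotIn (CA A i) := by
  unfold red
  split_ifs with h1 h2 h3
  · rw [← h1, mem_pair, h2]
    have h4 : num [] = 0 := rfl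
    rw [h4]
    constructor
    · intro h
      exact absurd (Or.inl rfl) h
    · intro h
      exact absurd h (nil_notIn _)
  · rw [mem_pair]
    conv_lhs => rw [← h1, mem_pair]
    have h5 : num (unpair z).2 ≠ 0 := by
      intro h
      apply h2
      rw [← Upper.str_num (unpair z).2, h, PiCA.str_zero]
    unfold CP
    rw [Upper.str_num]
    constructor
    · intro h h6
      exact h (Or.inr ⟨h3, h6⟩)
    · rintro h (h6 | ⟨-, h6⟩)
      · exact h5 h6
      · exact h h6
  · rw [mem_pair]
    conv_lhs => rw [← h1, mem_pair]
    have h5 : num (unpair z).2 ≠ 0 := by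
      intro h
      apply h2
      rw [← Upper.str_num (unpair z).2, h, PiCA.str_zero]
    unfold CP
    rw [Upper.str_num]
    constructor
    · intro _ h6
      have := PiCA.le _ _ h6
      have h7 : num [] = 0 := rfl
      have h8 : num [true] = 2 := rfl
      omega
    · rintro - (h6 | ⟨h6, -⟩)
      · exact h5 h6
      · exact h3 h6
  · constructor
    · rintro ⟨x, y, h, -⟩
      exfalso
      apply h1
      rw [h, unpair_pairBits]
    · intro h
      exact absurd h (nil_notIn _)

theorem poly_of_nice {g : ℕ → ℕ} (hg : NiceT (fun n => n) g) :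
    Poly (fun u : List Bool => g u.length) := by
  obtain ⟨F, hF, hFg⟩ := hg
  have h1 : Poly (fun u : List Bool => pairBits (List.replicate u.length true) u) :=
    poly_pairBits ((NPC.Poly.map (F := fun _ _ => true) (UPoly.length Poly.id)
      (NPC.Poly.const true)).congr (fun u => by simp)) Poly.id
  refine (Poly.length ((poly_of_polyTime hF).comp h1)).congr fun u => ?_
  rw [hFg, List.length_replicate]

theorem cp_pi {g : ℕ → ℕ} (hg : NiceT (fun n => n) g) (A : Oracle) (i : ℕ) :
    IsPiRel A i (CP g A i) := by
  obtain ⟨V, p, hV, h⟩ := PiCA.pi A i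
  have h1 : Pool.Agent.H490R3.LH.EQAx.QC A i true (fun z => z ∈ NotIn (CA A i)) := ⟨V, p, hV, h⟩
  obtain ⟨V', p', hV', h'⟩ := h1.red (poly_red (poly_of_nice hg))
  exact ⟨V', p', hV', fun z => (red_iff g A i z).trans (h' z)⟩

theorem cp_opt {g : ℕ → ℕ} (hg : NiceT (fun n => n) g) (A : Oracle) (i : ℕ) :
    OptProblem A i (CP g A i) id where
  zero := fun _ => Or.inl rfl
  le := cp_le
  pi := cp_pi hg A i
  fp := PiCA.fp A

end Pool.Agent.TH93.CE
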