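import Pool.Agent.TH93.CE.Ev
import Pool.Agent.TH93.CE.Pad
import Pool.Agent.W900.CH.Trans

/-!
# If the padded problem is easy, then the event happens
-/

set_option autoImplicit false

namespace Pool.Agent.TH93.CE

open Finset H568R2 Pool.Agent.H676 Pool.Agent.H620R2.Gauge Pool.Agent.NPC Pool.Agent.H591R3.PHG
open Pool.Agent.H591R3.CEX Pool.Agent.TH93.GL

/-- the oracles for which the parameters are good for the padded problem -/
def EasyP (g : ℕ → ℕ) (θ : Par2) : Set Oracle :=
  {A | ∃ V : List Bool → List Bool, (∀ x, θ.N.out A x = some (V x)) ∧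
    ∃ B : Oracle, (∀ q, B q = true ↔ Quant (θ.p.eval q.length) V θ.i true q) ∧
      Computes θ.M B (CP g A θ.i) id}

theorem mem_easyP {g : ℕ → ℕ} {A : Oracle} {i : ℕ} {M : CAlg} {B : Oracle}
    (h : IsSigma A i {q | B q = true}) (hM : Computes M B (CP g A i) id) :
    ∃ θ, A ∈ EasyP g θ := by
  obtain ⟨V, p, ⟨N, hN⟩, hB⟩ := h
  exact ⟨⟨M, N, p, i⟩, V, hN, B, hB, hM⟩

/-- the adversary plays correctly -/
theorem advN_legalP {C : ℕ → ℕ → Prop} (hle : ∀ x y, C x y → y ≤ x) {x : ℕ} :
    Legal C id x (advN {y | C x y}) := by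
  classical
  intro a y
  unfold advN
  by_cases h1 : y ∉ {y | C x y}
  · rw [if_pos h1]
    exact ⟨Nat.zero_le _, fun h => h1 h.1⟩
  · rw [if_neg h1]
    by_cases h2 : ∃ z, z ∈ {y | C x y} ∧ y < z
    · rw [dif_pos h2]
      have h3 := Nat.find_spec h2
      refine ⟨hle _ _ h3.1, fun h => h.2 h3.2 h3.1⟩
    · rw [dif_neg h2]
      refine ⟨not_not.1 h1, fun z _ hz => ?_⟩
      by_contra hcon
      exact h2 ⟨z, hz, not_le.1 hcon⟩

/-- the solutions given by the adversary are short -/
theorem advN_shortP {C : ℕ → ℕ → Prop} (hle : ∀ x y, C x y → y ≤ x) {x : ℕ} {a : List Bool}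
    {y z : ℕ} (h : advN {y | C x y} a y = some z) : (str z).length ≤ (str x).length := by
  have h1 := advN_legalP hle (x := x) a y
  rw [h] at h1
  exact Upper.length_le h1.1

/-- the bound for the questions of the verifier -/
noncomputable def Lq (θ : Par2) (ℓ : ℕ) : ℕ := ℓ + θ.i * (2 * θ.p.eval ℓ + 1)

theorem evP_of_easy (θ : Par2) : ∃ qb qn : Polynomial ℕ, ∀ (g : ℕ → ℕ), ∀ A ∈ EasyP g θ,
    ∀ (as : List ℕ) (a n N K m : ℕ), as.length = θ.i →
    (∀ j : Fin K, (inp (as ++ [a]) n K j).length + 3 ≤ m ∧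
      (inp (as ++ [a]) n K j).length ≤ g m) →
    ∀ hN : ∀ g : Idx (Fin K × Fin (2 ^ a)) (8 * n :: pw as),
      idx (addr (xs2 as a n K) as g.1 ++ List.replicate g.2.val true) < N,
    2 ^ (qn.eval (Lq θ (qb.eval m)) + 1) ≤ N →
    EvP θ as a n N (fun j => pad m (inp (as ++ [a]) n K j)) (θ.M.p.eval m) (qb.eval m) hN
      (pre N A) := by
  classical
  obtain ⟨qb, hqb⟩ := run_trunc θ.M
  obtain ⟨qn, hqn⟩ := Alg.out_local θ.N
  refine ⟨qb, qn, ?_⟩
  rintro g A ⟨V, hV, B, hB, hM⟩ as a n N K m hk hlen hpos hN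
  have hVl : ∀ y : List Bool, y.length ≤ Lq θ (qb.eval m) →
      (V y = [true] ↔ leaf θ.N N y (pre N A) = true) := by
    intro y hy
    obtain ⟨Q, _, hQl, hQA⟩ := hqn A y
    have h1 : θ.N.out (orc N (pre N A)) y = θ.N.out A y := by
      apply hQA
      intro q hq
      apply orc_pre
      have h2 := idx_lt q
      have h3 : q.length ≤ qn.eval (Lq θ (qb.eval m)) := (hQl q hq).trans (eval_mono _ hy)
      have h4 : 2 ^ (q.length + 1) ≤ 2 ^ (qn.eval (Lq θ (qb.eval m)) + 1) :=
        Nat.pow_le_pow_right (by norm_num) (by omega)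
      omega
    unfold leaf
    rw [h1, hV y, decide_eq_true_eq, Option.some.injEq]
  -- the oracle
  have hO : (fun q : List Bool => decide (q.length ≤ qb.eval m) && B q) =
      orcF (fun q => θ.p.eval q.length) (qb.eval m) (fun _ y => leaf θ.N N y) θ.i true
        (pre N A) := by
    funext q
    unfold orcF
    by_cases hq : q.length ≤ qb.eval m
    · have h3 := quant_iff (m := θ.p.eval q.length) (Lq θ (qb.eval m)) hVl θ.i true q (by
        unfold Lq
        have h5 : θ.p.eval q.length ≤ θ.p.eval (qb.eval m) := eval_mono _ hq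
        have h6 : θ.i * (2 * θ.p.eval q.length + 1) ≤
          θ.i * (2 * θ.p.eval (qb.eval m) + 1) := Nat.mul_le_mul_left _ (by omega)
        omega)
      rw [← hB q] at h3
      have h4 : B q = QF (θ.p.eval q.length) (leaf θ.N N) θ.i true q (pre N A) := by
        rw [Bool.eq_iff_iff]
        exact h3
      rw [h4]
    · rw [decide_eq_false hq, Bool.false_and, Bool.false_and]
  intro j
  obtain ⟨hl3, hlg⟩ := hlen j
  have hlm : (pad m (inp (as ++ [a]) n K j)).length = m := pad_len hl3
  have h1 := hM (num (pad m (inp (as ++ [a]) n K j))) _ (advN_legalP cp_le)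
  rw [str_num, hlm] at h1
  obtain ⟨y, h2, h3⟩ := h1
  have hS : {y | CP g A θ.i (num (pad m (inp (as ++ [a]) n K j))) y} =
      feas (nm2 a) (fun v => Tr (8 * n :: pw as)
        (fun g => pre N A (pos2 as a n K N hpos g)) (j, v)) := by
    ext y
    have e0 : CP g A θ.i (num (pad m (inp (as ++ [a]) n K j))) y ↔
        CA A θ.i (num (inp (as ++ [a]) n K j)) y := by
      unfold CP
      rw [str_num, hlm, core_pad]
      constructor
      · rintro (h | ⟨-, h⟩)
        · exact Or.inl h
        · exact h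
      · intro h
        exact Or.inr ⟨hlg, h⟩
    rw [Set.mem_ofPred_eq, e0, ← hk, CA_iff]
    have e : leaves (xs2 as a n K) as (8 * n) A =
        fun g => pre N A (pos2 as a n K N hpos g) := by
      funext g
      show A (addr (xs2 as a n K) as g.1 ++ List.replicate g.2.val true) =
        A (str (idx (addr (xs2 as a n K) as g.1 ++ List.replicate g.2.val true)))
      rw [str_idx]
    rw [e]
  refine ⟨y, ?_, ?_, ?_⟩
  · rw [← hS, ← hO]
    have h4 := hqb B (advN {y | CP g A θ.i (num (pad m (inp (as ++ [a]) n K j))) y})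
      (pad m (inp (as ++ [a]) n K j)) (fun a y z h => by
        have h5 := advN_shortP cp_le h
        rw [str_num] at h5
        exact h5) (qb.eval m) (by rw [hlm])
    rw [hlm] at h4
    rw [← h4]
    exact h2
  · rw [← hS]
    exact h3.1
  · intro z hz
    rw [← hS] at hz
    exact h3.2 z (cp_le _ _ hz) hz

end Pool.Agent.TH93.CE
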