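import Pool.Agent.H591R3.CEX.Event2

/-!
# The event that the algorithm is right on padded inputs

(Adapted from `Pool.Agent.H591R3.CEX.Event2`: the inputs and the bounds are arbitrary.)
-/

set_option autoImplicit false

namespace Pool.Agent.TH93.CE

open Finset H568R2 Pool.Agent.H676 Pool.Agent.H620R2.Gauge Pool.Agent.NPC Pool.Agent.H591R3.PHG
open Pool.Agent.H591R3.CEX

/-- The event: the algorithm is right on all the inputs `X j`. -/
def EvP (θ : Par2) (as : List ℕ) (a n N : ℕ) {K : ℕ} (X : Fin K → List Bool) (Rn ℓ : ℕ)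
    (hN : ∀ g : Idx (Fin K × Fin (2 ^ a)) (8 * n :: pw as),
      idx (addr (xs2 as a n K) as g.1 ++ List.replicate g.2.val true) < N)
    (α : Fin N → Bool) : Prop :=
  EvS θ.M X Rn (nm2 a)
    (orcF (fun q => θ.p.eval q.length) ℓ (fun _ y => leaf θ.N N y) θ.i true α)
    (Tr (8 * n :: pw as) (fun g => α (pos2 as a n K N hN g)))

open Classical in
theorem evP_bound (θ : Par2) {n N u Rn ℓ P K : ℕ} (hK : K = 2 ^ (u + 11)) (X : Fin K → List Bool)
    (hn : 40 ≤ n) (hu : 8 * u ≤ n) {as : List ℕ} {a : ℕ} (hk : as.length = θ.i) (ha1 : 1 ≤ a)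
    (hlaw : Ex (nxt (1 / 2) (1 / 2 ^ (4 * n)) 0 (8 * n) (8 * n) law0)
      (WT (X := Fin K × Fin (2 ^ a)) (1 / 2 ^ (4 * n)) (1 / 2 ^ (2 * n))
        (8 * n * 2 ^ (4 * n))
        (fun s => if ngood2 (2 ^ (5 * n - 3)) s < 2 ^ (u + 9) then (1 : ℝ) else 0) (pw as)) ≤
      (9 / 10) ^ K)
    (hRn2 : Rn ≤ 2 ^ (2 * u)) (hP : P ≤ 2 ^ (2 * u))
    (hP1 : θ.N.p.eval (ℓ + θ.i * (2 * θ.p.eval ℓ + 1)) ≤ P)
    (hP2 : ℓ + θ.i * (2 * θ.p.eval ℓ + 1) + θ.p.eval ℓ + 4 ≤ P)
    (hN : ∀ g : Idx (Fin K × Fin (2 ^ a)) (8 * n :: pw as),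
      idx (addr (xs2 as a n K) as g.1 ++ List.replicate g.2.val true) < N) :
    Ex unif (fun α : Fin N → Bool => if EvP θ as a n N X Rn ℓ hN α then (1 : ℝ) else 0) ≤
      bnd θ.i (Polynomial.C P) n u := by
  have hPP : (Polynomial.C P).eval n = P := Polynomial.eval_C
  have hn5 : 5 ≤ n := by omega
  have hKn : K ≤ 2 ^ (n + 11) := hK ▸ Nat.pow_le_pow_right (by norm_num) (by omega)
  have hinj := pos2_inj as a n K N hN hKn
  set mx : ℕ := θ.p.eval ℓ with hmx
  have hμ : ∀ q : List Bool, q.length ≤ ℓ → (fun q : List Bool => θ.p.eval q.length) q ≤ mx :=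
    fun q hq => eval_mono _ hq
  set g₀ : ℕ := 2 ^ (u + 9) with hg₀
  set D₀ : ℕ := 2 ^ (5 * n - 3) with hD₀
  set t : ℝ := 1 / 2 ^ (4 * n) with ht
  set lam : ℝ := 2 ^ (4 * n) / 2 ^ (5 * u + 13) with hlam
  have ht0 : 0 < t := by positivity
  have ht1 : t < 1 := by
    rw [ht, div_lt_one (by positivity)]
    exact one_lt_pow₀ (by norm_num) (by omega)
  have hlam1 : 1 ≤ lam := by
    rw [hlam, one_le_div (by positivity)]
    exact pow_le_pow_right₀ (by norm_num) (by omega)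
  set C : ℝ := K * (2 ^ Rn * (1 - t / 2) ^ D₀) +
    (1 / lam) ^ g₀ * (1 + lam * t) ^ (K * (Rn * (2 ^ (2 * u) + 1))) with hC
  have hC0 : 0 ≤ C := by
    have h1 : 0 ≤ 1 - t / 2 := by linarith
    positivity
  set W0 : (Fin K × Fin (2 ^ a) → Option Bool) → ℝ :=
    fun s => (if ngood2 D₀ s < g₀ then (1 : ℝ) else 0) + C with hW0
  have hW : ∀ s, 0 ≤ W0 s := by
    intro s
    rw [hW0]
    beta_reduce
    split_ifs <;> linarith
  set E : (List Bool → Bool) → (Fin K × Fin (2 ^ a) → Bool) → Prop :=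
    EvS θ.M X Rn (nm2 a) with hE
  have hbase : ∀ (O : List Bool → (Fin K × Fin (2 ^ a) → Bool) → Bool),
      (∀ q, DTr (2 ^ (2 * u)) (O q)) → ∀ s : Fin K × Fin (2 ^ a) → Option Bool,
        Pe t [] s E (fun z q => O q z) ≤ W0 s := by
    intro O hO s
    by_cases hg : ngood2 D₀ s < g₀
    · have h1 : Pe (X := Fin K × Fin (2 ^ a)) t [] s E (fun z q => O q z) ≤ 1 :=
        Pe_le_one ht0.le ht1.le [] s E _
      rw [hW0]
      beta_reduce
      rw [if_pos hg]
      linarith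
    · have h1 := game_bound ht0.le ht1.le hlam1 θ.M X (nm2 a)
        (nm2_inj a) (nm2_pos ha1) s O hO (Rn := Rn) (g := g₀) (D := D₀) (by omega)
      rw [hW0]
      beta_reduce
      rw [if_neg hg, zero_add]
      exact h1
  rw [Ex_overwrite (pos2 as a n K N hN) hinj]
  have hkey : ∀ α : Fin N → Bool,
      Ex (ber (1 / 2)) (fun z : Idx (Fin K × Fin (2 ^ a)) (8 * n :: pw as) → Bool =>
      (fun α : Fin N → Bool => if EvP θ as a n N X Rn ℓ hN α then (1 : ℝ) else 0)
        (fun i => if h : ∃ j, pos2 as a n K N hN j = i then z h.choose else α i)) ≤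
      bnd θ.i (Polynomial.C P) n u := by
    intro α
    set F : ℕ → List Bool → (Idx (Fin K × Fin (2 ^ a)) (8 * n :: pw as) → Bool) → Bool :=
      fun _ y z => leaf θ.N N y
        (fun i => if h : ∃ j, pos2 as a n K N hN j = i then z h.choose else α i) with hF
    have hFd : ∀ m ≤ mx, ∀ y : List Bool, y.length ≤ ℓ + θ.i * (2 * mx + 1) →
        DTr (2 ^ (2 * u)) (F m y) := by
      intro m _ y hy
      have h1 : DTr (θ.N.p.eval y.length) (leaf θ.N N y) := dtr_out θ.N N y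
      have h2 : θ.N.p.eval y.length ≤ 2 ^ (2 * u) := by
        have h4 : θ.N.p.eval y.length ≤ θ.N.p.eval (ℓ + θ.i * (2 * mx + 1)) := eval_mono _ hy
        omega
      exact DTr_overwrite (pos2 as a n K N hN) α (h1.mono h2)
    have hlen2 : (pw as).length = θ.i := by
      rw [pw, List.length_map]; exact hk
    have h1 := main_leaf2 (X := Fin K × Fin (2 ^ a)) hn5 hu E W0 hW hbase
      (fun q : List Bool => θ.p.eval q.length) mx ℓ hμ θ.i (pw as) hlen2 F hFd true
    -- the last term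
    have hinv := inv_start hn5
    have h2 : Ex (nxt (1 / 2) t 0 (8 * n) (8 * n) law0)
        (WT (X := Fin K × Fin (2 ^ a)) t (1 / 2 ^ (2 * n)) (8 * n * 2 ^ (4 * n)) W0 (pw as)) =
        Ex (nxt (1 / 2) t 0 (8 * n) (8 * n) law0)
        (WT (X := Fin K × Fin (2 ^ a)) t (1 / 2 ^ (2 * n)) (8 * n * 2 ^ (4 * n))
          (fun s => if ngood2 D₀ s < g₀ then (1 : ℝ) else 0) (pw as)) + C := by
      have h3 : WT (X := Fin K × Fin (2 ^ a)) t (1 / 2 ^ (2 * n)) (8 * n * 2 ^ (4 * n)) W0 (pw as) =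
          fun s => WT (X := Fin K × Fin (2 ^ a)) t (1 / 2 ^ (2 * n)) (8 * n * 2 ^ (4 * n))
          (fun s => if ngood2 D₀ s < g₀ then (1 : ℝ) else 0) (pw as) s + C := by
        funext s
        exact WT_add ht0 ht1 (by
          have : 0 < 8 * n * 2 ^ (4 * n) := by positivity
          omega) _ C (pw as) s
      rw [h3, Ex_add, Ex_const hinv.sum]
    rw [h2] at h1
    have h4 := final2 hn hu hRn2
    have h5 : (C : ℝ) + (9 / 10) ^ K ≤ 3 * (1 / 2) ^ (2 ^ u) := by
      refine le_trans (le_of_eq ?_) h4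
      rw [hC, hK]
      push_cast
      ring
    -- the comparison with the general bound
    have hPn1 : (mx + 1 : ℝ) * 2 ^ (ℓ + θ.i * (2 * mx + 1) + 2) ≤ 2 ^ P := by
      have h6 : ((mx + 1 : ℕ) : ℝ) ≤ 2 ^ mx := by
        have : mx + 1 ≤ 2 ^ mx := Nat.lt_two_pow_self
        exact_mod_cast this
      have h7 : (mx + 1 : ℝ) * 2 ^ (ℓ + θ.i * (2 * mx + 1) + 2) ≤
          2 ^ mx * 2 ^ (ℓ + θ.i * (2 * mx + 1) + 2) :=
        mul_le_mul_of_nonneg_right (by exact_mod_cast h6) (by positivity)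
      refine h7.trans ?_
      rw [← pow_add]
      apply pow_le_pow_right₀ (by norm_num)
      omega
    have hPn2 : (3 : ℝ) ≤ 2 ^ P := by
      calc (3 : ℝ) ≤ 2 ^ 2 := by norm_num
        _ ≤ _ := pow_le_pow_right₀ (by norm_num) (by omega)
    have h8 : (θ.i : ℝ) * ((mx + 1) * (2 ^ (ℓ + θ.i * (2 * mx + 1) + 2) *
        (1 / 2) ^ (2 ^ (2 * u) + 1))) ≤
        2 ^ P * (θ.i * (1 / 2) ^ (2 ^ (2 * u) + 1)) := by
      have h9 : (0 : ℝ) ≤ θ.i * (1 / 2) ^ (2 ^ (2 * u) + 1) := by positivity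
      have h10 := mul_le_mul_of_nonneg_right hPn1 h9
      refine le_trans (le_of_eq ?_) h10
      ring
    have h11 : (3 : ℝ) * (1 / 2) ^ (2 ^ u) ≤ 2 ^ P * (1 / 2) ^ (2 ^ u) :=
      mul_le_mul_of_nonneg_right hPn2 (by positivity)
    have hq1 : ((1 : ℝ) / (24 * 2 ^ (2 * u))) ^ θ.i ≤ 1 := by
      apply pow_le_one₀ (by positivity)
      rw [div_le_one (by positivity)]
      have : (1 : ℝ) ≤ 2 ^ (2 * u) := one_le_pow₀ (by norm_num)
      linarith
    have h12 : (0 : ℝ) ≤ 2 ^ P * (2 ^ u * (2 ^ (3 * u) + 1) *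
        (1 - (1 / (24 * 2 ^ (2 * u))) ^ θ.i) ^ (2 ^ n / (2 ^ (3 * u) + 1))) := by
      have : (0 : ℝ) ≤ (1 - (1 / (24 * 2 ^ (2 * u))) ^ θ.i) ^ (2 ^ n / (2 ^ (3 * u) + 1)) :=
        pow_nonneg (by linarith) _
      positivity
    refine le_trans (le_of_eq ?_) (h1.trans ?_)
    · unfold Pe
      congr 1
      funext z
      have e1 : (fun g => (fun i => if h : ∃ j, pos2 as a n K N hN j = i then z h.choose else α i)
          (pos2 as a n K N hN g)) = val (fun _ => none) z := by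
        funext g
        have hex : ∃ j, pos2 as a n K N hN j = pos2 as a n K N hN g := ⟨g, rfl⟩
        show (if h : ∃ j, pos2 as a n K N hN j = pos2 as a n K N hN g then z h.choose else
          α (pos2 as a n K N hN g)) = z g
        rw [dif_pos hex]
        exact congrArg z (hinj hex.choose_spec)
      have e2 : orcF (fun q : List Bool => θ.p.eval q.length) ℓ (fun _ y => leaf θ.N N y) θ.i true
          (fun i => if h : ∃ j, pos2 as a n K N hN j = i then z h.choose else α i) =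
          orcF (fun q : List Bool => θ.p.eval q.length) ℓ F θ.i true z := by
        funext q
        unfold orcF
        rw [← QF_comp (θ.p.eval q.length) (leaf θ.N N) (fun z i =>
          if h : ∃ j, pos2 as a n K N hN j = i then z h.choose else α i)]
      have e3 : EvP θ as a n N X Rn ℓ hN
          (fun i => if h : ∃ j, pos2 as a n K N hN j = i then z h.choose else α i) ↔
          E (orcF (fun q : List Bool => θ.p.eval q.length) ℓ F θ.i true z)
            (Tr (8 * n :: pw as) (val (fun _ => none) z)) := by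
        unfold EvP
        rw [e1, e2]
      exact if_congr e3 rfl rfl
    · unfold bnd
      rw [hPP]
      linarith
  refine (Ex_mono unif_nonneg hkey).trans (le_of_eq ?_)
  exact Ex_const unif_sum _

end Pool.Agent.TH93.CE
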