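import Pool.Agent.H591R3.CEX.Upper
import Pool.Agent.H591R3.CEX.PiCA

/-!
# Few values: present the last counterexample
-/

set_option autoImplicit false

namespace Pool.Agent.TH93.CE

open Pool.Agent.H620R2.Gauge Pool.Agent.NPC Pool.Agent.H591R3.PHG
open Pool.Agent.H591R3.CEX
open Pool.Agent.H622R2 (poly_pairBits polyTime_of_poly_list)

/-- read one counterexample -/
def stp (s : List Bool × List Bool) : List Bool × List Bool :=
  if s.2.head?.getD false = true then unpair s.2.tail else s

/-- the last counterexample and the rest of the protocol -/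
def fin (a : List Bool) : List Bool × List Bool := stp^[a.length] ([], a)

theorem len_unpair (y : List Bool) : (unpair y).1.length ≤ y.length ∧
    (unpair y).2.length ≤ y.length := by
  have h1 := LangSig.length_unpair y
  omega

theorem stp_len (n : ℕ) : ∀ k (s : List Bool × List Bool), s.1.length ≤ n → s.2.length ≤ n →
    (stp^[k] s).1.length ≤ n ∧ (stp^[k] s).2.length ≤ n := by
  intro k
  induction k with
  | zero => intro s h1 h2; exact ⟨h1, h2⟩
  | succ k ih =>
    intro s h1 h2
    rw [Function.iterate_succ_apply]
    have h3 : (stp s).1.length ≤ n ∧ (stp s).2.length ≤ n := by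
      unfold stp
      split_ifs
      · have h4 := len_unpair s.2.tail
        have h5 : s.2.tail.length ≤ s.2.length := by
          rw [List.length_tail]; omega
        omega
      · exact ⟨h1, h2⟩
    exact ih _ h3.1 h3.2

theorem poly_stp : Poly stp :=
  Poly.ite (p := fun s : List Bool × List Bool => s.2.head?.getD false = true)
    (Poly.decide_eq (Poly.head?_getD (Poly.snd Poly.id) false) (NPC.Poly.const true))
    (poly_unpair.comp (Poly.tail (Poly.snd Poly.id))) Poly.id

theorem poly_fin : Poly fin := by
  refine Poly.iterLen (F := fun _ => stp) (s := fun y : List Bool => ([], y)) Poly.id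
    (Poly.pair (NPC.Poly.const _) Poly.id) (poly_stp.comp (Poly.snd Poly.id))
    (Polynomial.C 8 * Polynomial.X + 3) ?_
  intro y k _
  have h1 := stp_len y.length k ([], y) (Nat.zero_le _) le_rfl
  have h2 := sz_listBool_le (stp^[k] ([], y)).1
  have h3 := sz_listBool_le (stp^[k] ([], y)).2
  have h4 := length_lt_sz y
  have h5 : sz (stp^[k] ([], y)) = sz (stp^[k] ([], y)).1 + sz (stp^[k] ([], y)).2 + 1 :=
    sz_pair _ _
  simp only [Polynomial.eval_add, Polynomial.eval_mul, Polynomial.eval_C, Polynomial.eval_X,
    Polynomial.eval_ofNat]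
  omega

/-- the answer of the adversary with the counterexample `z` -/
def blk (z : ℕ) : List Bool := true :: pairBits (str z) []

theorem pair_append (x w : List Bool) : pairBits x [] ++ w = pairBits x w := by
  simp [pairBits]

theorem iter_blk : ∀ (zs : List ℕ) (l : List Bool) (t : List Bool), (t = [] ∨ t = [false]) →
    ∀ k, zs.length ≤ k → stp^[k] (l, (zs.map blk).flatten ++ t) =
      (zs.foldl (fun _ z => str z) l, t) := by
  intro zs
  induction zs with
  | nil =>
    intro l t ht k _
    have h1 : stp (l, t) = (l, t) := by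
      unfold stp
      rcases ht with rfl | rfl <;> simp
    exact Function.iterate_fixed h1 k
  | cons z zs ih =>
    intro l t ht k hk
    obtain ⟨k', rfl⟩ : ∃ k', k = k' + 1 := ⟨k - 1, by
      rw [List.length_cons] at hk
      omega⟩
    rw [Function.iterate_succ_apply]
    have h1 : stp (l, ((z :: zs).map blk).flatten ++ t) = (str z, (zs.map blk).flatten ++ t) := by
      unfold stp
      have h2 : ((z :: zs).map blk).flatten ++ t =
          true :: pairBits (str z) ((zs.map blk).flatten ++ t) := by
        rw [List.map_cons, List.flatten_cons, blk, List.cons_append, List.cons_append,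
          List.append_assoc, pair_append]
      rw [h2]
      simp only [List.head?_cons, Option.getD_some, if_true, List.tail_cons, unpair_pairBits]
    rw [h1, ih (str z) t ht k' (by rw [List.length_cons] at hk; omega)]
    rfl

theorem len_blks (zs : List ℕ) : zs.length ≤ (zs.map blk).flatten.length := by
  induction zs with
  | nil => simp
  | cons z zs ih =>
    rw [List.map_cons, List.flatten_cons, List.length_append, List.length_cons, blk,
      List.length_cons]
    omega

theorem fin_blks (zs : List ℕ) (t : List Bool) (ht : t = [] ∨ t = [false]) :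
    fin ((zs.map blk).flatten ++ t) = (zs.foldl (fun _ z => str z) [], t) := by
  unfold fin
  exact iter_blk zs [] t ht _ (by
    rw [List.length_append]
    have := len_blks zs
    omega)

/-- the algorithm presents the last counterexample -/
def DV (z : List Bool) : List Bool :=
  if (fin (unpair z).2).2 = [false] then true :: (fin (unpair z).2).1
  else false :: true :: (fin (unpair z).2).1

theorem poly_DV : Poly DV := by
  have h1 : Poly (fun z : List Bool => fin (unpair z).2) :=
    poly_fin.comp (Poly.snd poly_unpair)
  exact Poly.ite (p := fun z => (fin (unpair z).2).2 = [false])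
    (Poly.decide_eq (Poly.snd h1) (NPC.Poly.const [false]))
    (Poly.cons (NPC.Poly.const true) (Poly.fst h1))
    (Poly.cons (NPC.Poly.const false) (Poly.cons (NPC.Poly.const true) (Poly.fst h1)))

/-- the algorithm -/
noncomputable def MV (p : Polynomial ℕ) : CAlg := ⟨DV, polyTime_of_poly_list poly_DV, p + 2⟩

/-- the values that are larger than the value of `l` -/
def Rem (C : ℕ → ℕ → Prop) (ρ : ℕ → ℕ) (x l : ℕ) : Set ℕ := ρ '' {y | C x y ∧ ρ l < ρ y}

theorem rem_finite {C : ℕ → ℕ → Prop} {ρ : ℕ → ℕ} {x : ℕ} (hle : ∀ y, C x y → y ≤ x) (l : ℕ) :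
    (Rem C ρ x l).Finite :=
  Set.Finite.image _ ((Set.finite_Iic x).subset fun y hy => hle y hy.1)

theorem run_ok {C : ℕ → ℕ → Prop} {ρ : ℕ → ℕ} {x : ℕ} (hle : ∀ y, C x y → y ≤ x)
    (p : Polynomial ℕ) (B : Oracle) {adv : Adversary} (hadv : Legal C ρ x adv) :
    ∀ (n : ℕ) (zs : List ℕ) (l : ℕ), zs.foldl (fun _ z => str z) [] = str l → C x l →
      (Rem C ρ x l).ncard + 2 ≤ n →
      ∃ y, (MV p).run B adv (str x) n (zs.map blk).flatten = some (str y) ∧ Optimal C ρ x y := by
  intro n
  induction n with
  | zero => intro zs l _ _ h; omega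
  | succ n ih =>
    intro zs l hl hC hn
    have e1 : (MV p).D (pairBits (str x) (zs.map blk).flatten) = false :: true :: str l := by
      show DV _ = _
      unfold DV
      have h1 := fin_blks zs [] (Or.inl rfl)
      rw [List.append_nil] at h1
      rw [unpair_pairBits]
      simp only [h1, hl]
      rw [if_neg (by simp)]
    have h2 := hadv (zs.map blk).flatten l
    rcases hz : adv (zs.map blk).flatten l with _ | z
    · rw [hz] at h2
      refine ⟨l, ?_, h2⟩
      obtain ⟨n', rfl⟩ : ∃ n', n = n' + 1 := ⟨n - 1, by omega⟩
      rw [CAlg.run, e1]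
      simp only [Upper.num_str, hz]
      rw [CAlg.run]
      have e2 : (MV p).D (pairBits (str x) ((zs.map blk).flatten ++ [false])) = true :: str l := by
        show DV _ = _
        unfold DV
        rw [unpair_pairBits]
        simp only [fin_blks zs [false] (Or.inr rfl), hl]
        rw [if_pos trivial]
      rw [e2]
    · rw [hz] at h2
      obtain ⟨hzx, h3⟩ := h2
      have h4 : ρ l < ρ z ∧ C x z := by
        by_contra hcon
        exact h3 ⟨hC, fun h5 h6 => hcon ⟨h5, h6⟩⟩
      have h5 : Rem C ρ x z ⊂ Rem C ρ x l := by
        rw [Set.ssubset_iff_of_subset]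
        · exact ⟨ρ z, ⟨z, ⟨h4.2, h4.1⟩, rfl⟩, by
            rintro ⟨y, ⟨_, h6⟩, h7⟩
            omega⟩
        · rintro _ ⟨y, ⟨h6, h7⟩, rfl⟩
          exact ⟨y, ⟨h6, h4.1.trans h7⟩, rfl⟩
      have h6 := Set.ncard_lt_ncard h5 (rem_finite hle l)
      obtain ⟨y, hy, hyo⟩ := ih (zs ++ [z]) z (by rw [List.foldl_append]; rfl) h4.2 (by omega)
      refine ⟨y, ?_, hyo⟩
      rw [CAlg.run, e1]
      simp only [Upper.num_str, hz]
      rw [List.map_append, List.flatten_append] at hy
      simpa [blk] using hy

/-- If there are few values, then the problem is computed. -/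
theorem up {A : Oracle} {i : ℕ} {C : ℕ → ℕ → Prop} {ρ : ℕ → ℕ} (hO : OptProblem A i C ρ)
    (p : Polynomial ℕ) (h : ∀ x, (ρ '' {y | C x y}).ncard ≤ p.eval (str x).length) :
    ∃ (M : CAlg) (B : Oracle), IsSigma A i {q | B q = true} ∧ Computes M B C ρ := by
  refine ⟨MV p, fun _ => false, ?_, fun x adv hadv => ?_⟩
  · have h1 : IsP A (∅ : Set (List Bool)) :=
      ⟨fun _ => [], IsFP.of_poly (NPC.Poly.const []), fun x => by simp⟩
    have h2 : {q : List Bool | (fun _ => false : Oracle) q = true} = ∅ := by
      ext q
      simp
    rw [h2]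
    exact IsSig.of_isP h1 i
  · have h1 : (MV p).p.eval (str x).length = p.eval (str x).length + 2 := by
      show (p + 2).eval _ = _
      simp
    rw [h1]
    have h2 := run_ok (hO.le x) p (fun _ => false) hadv (p.eval (str x).length + 2) [] 0
      (by rw [PiCA.str_zero]; rfl) (hO.zero x) (by
        have h3 : Rem C ρ x 0 ⊆ ρ '' {y | C x y} := by
          rintro _ ⟨y, hy, rfl⟩
          exact ⟨y, hy.1, rfl⟩
        have h4 : (ρ '' {y | C x y}).Finite :=
          Set.Finite.image _ ((Set.finite_Iic x).subset fun y hy => hO.le x y hy)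
        have h5 := Set.ncard_le_ncard h3 h4
        have h6 := h x
        omega)
    exact h2

end Pool.Agent.TH93.CE
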