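import Pool.Agent.TH93.CE.Defs
import Pool.Agent.TH93.CE.Cover
import Pool.Agent.TH93.CE.Up

/-!
# The law
-/

set_option autoImplicit false

namespace Pool.Agent.TH93.CE

open MeasureTheory Pool.Agent.H620R2.Gauge Pool.Agent.NPC
open Pool.Agent.H591R3.CEX Pool.Agent.TH93.GL
open Pool.Agent.H628R3.RO (randomOracle)

theorem pow_bound {g : ℕ → ℕ} {c : ℕ} (hc : ∀ n, g n ≤ c * (Nat.log 2 n + 1)) (n : ℕ) :
    2 ^ g n ≤ ((2 * Polynomial.X + 2) ^ c : Polynomial ℕ).eval n := by
  simp only [Polynomial.eval_pow, Polynomial.eval_add, Polynomial.eval_mul, Polynomial.eval_X,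
    Polynomial.eval_ofNat]
  have h1 : 2 ^ (Nat.log 2 n + 1) ≤ 2 * n + 2 := by
    rcases Nat.eq_zero_or_pos n with rfl | hn
    · simp
    · have h2 := Nat.pow_log_le_self 2 (by omega : n ≠ 0)
      rw [pow_succ]
      omega
  calc 2 ^ g n ≤ 2 ^ (c * (Nat.log 2 n + 1)) := Nat.pow_le_pow_right (by norm_num) (hc n)
    _ = (2 ^ (Nat.log 2 n + 1)) ^ c := by rw [← pow_mul]; congr 1; ring
    _ ≤ _ := Nat.pow_le_pow_left h1 c

/-- the numbers of the strings of length at most `a` -/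
theorem ncard_short {S : Set ℕ} {a : ℕ} (h : ∀ y ∈ S, (str y).length ≤ a) :
    S.ncard ≤ 2 ^ (a + 1) - 1 := by
  have h1 : S ⊆ ↑(Finset.range (2 ^ (a + 1) - 1)) := by
    intro y hy
    rw [Finset.coe_range, Set.mem_Iio]
    have h2 := idx_lt (str y)
    rw [idx_str] at h2
    have h3 : 2 ^ ((str y).length + 1) ≤ 2 ^ (a + 1) :=
      Nat.pow_le_pow_right (by norm_num) (by have := h y hy; omega)
    omega
  have h2 := Set.ncard_le_ncard h1 (Finset.finite_toSet _)
  rwa [Set.ncard_coe_finset, Finset.card_range] at h2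

theorem cp_few (g : ℕ → ℕ) (A : Oracle) (i x : ℕ) :
    (id '' {y | CP g A i x y}).ncard ≤ 2 ^ g (str x).length := by
  rw [Set.image_id]
  have key : ∃ a, 2 * a ≤ g (str x).length ∧ ∀ y, CP g A i x y → (str y).length ≤ a := by
    by_cases h : (core (str x)).length ≤ g (str x).length
    · have h1 := PiCA.length_unpair2 (core (str x))
      refine ⟨(unpair (core (str x))).1.length, by omega, ?_⟩
      rintro y (h2 | ⟨-, h2 | ⟨h2, -⟩⟩)
      · rw [h2, PiCA.str_zero]
        exact Nat.zero_le _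
      · rw [h2, PiCA.str_zero]
        exact Nat.zero_le _
      · rw [Upper.str_num] at h2
        exact h2.le
    · refine ⟨0, by omega, ?_⟩
      rintro y (h2 | ⟨h2, -⟩)
      · rw [h2, PiCA.str_zero]
        exact Nat.zero_le _
      · exact absurd h2 h
  obtain ⟨a, ha, h1⟩ := key
  refine (ncard_short (S := {y | CP g A i x y}) (a := a) h1).trans ?_
  refine le_trans ?_ (Nat.pow_le_pow_right (by norm_num) ha)
  rcases Nat.eq_zero_or_pos a with rfl | h2
  · simp
  · exact (Nat.sub_le _ _).trans (Nat.pow_le_pow_right (by norm_num) (by omega))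

theorem law : ∀ᵐ A ∂randomOracle, ∀ g : ℕ → ℕ, NiceT (fun n => n) g → ∀ i : ℕ, List.TFAE [
    ∃ c : ℕ, ∀ n, g n ≤ c * (Nat.log 2 n + 1),
    ∀ (C : ℕ → ℕ → Prop) (ρ : ℕ → ℕ), OptProblem A i C ρ →
      (∀ x, (ρ '' {y | C x y}).ncard ≤ 2 ^ g (str x).length) → Comp1 A i C ρ,
    ∀ (C : ℕ → ℕ → Prop) (ρ : ℕ → ℕ), OptProblem A i C ρ →
      (∀ x y, C x y → (str (ρ y)).length ≤ g (str x).length) → Comp1 A i C ρ,
    ∀ C : ℕ → ℕ → Prop, OptProblem A i C id →
      (∀ x y, C x y → (str y).length ≤ g (str x).length) → Comp1 A i C id] := by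
  filter_upwards [ae_hard] with A hA g hg i
  tfae_have 1 → 2 := by
    rintro ⟨c, hc⟩ C ρ hO h
    exact up hO _ fun x => (h x).trans (pow_bound hc _)
  tfae_have 1 → 3 := by
    rintro ⟨c, hc⟩ C ρ hO h
    refine up hO (2 * (2 * Polynomial.X + 2) ^ c) fun x => ?_
    have h1 : (ρ '' {y | C x y}).ncard ≤ 2 ^ (g (str x).length + 1) - 1 := by
      apply ncard_short
      rintro _ ⟨y, hy, rfl⟩
      exact h x y hy
    have h2 := pow_bound hc (str x).length
    have h3 : (2 * (2 * Polynomial.X + 2) ^ c : Polynomial ℕ).eval (str x).length =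
        2 * ((2 * Polynomial.X + 2) ^ c : Polynomial ℕ).eval (str x).length := by
      rw [Polynomial.eval_mul, Polynomial.eval_ofNat]
    rw [h3]
    rw [pow_succ] at h1
    omega
  tfae_have 3 → 4 := fun h C hO hs => h C id hO hs
  tfae_have 2 → 1 := by
    intro h
    by_contra hcon
    obtain ⟨M, B, hB, hM⟩ := h (CP g A i) id (cp_opt hg A i) (cp_few g A i)
    exact hA g hg hcon i M B hB hM
  tfae_have 4 → 1 := by
    intro h
    by_contra hcon
    obtain ⟨M, B, hB, hM⟩ := h (CP g A i) (cp_opt hg A i) fun x y => cp_short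
    exact hA g hg hcon i M B hB hM
  tfae_finish

end Pool.Agent.TH93.CE
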